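import Pool.Agent.Lib.FL63.Gram

/-! The energy bound for points on the cones mod p, and the count of such points. -/

namespace FL63

open Finset

theorem two_ne {p : ℕ} (hp : 11 ≤ p) : (2 : ZMod p) ≠ 0 := by
  intro h
  have h1 : ((2 : ℕ) : ZMod p) = 0 := by exact_mod_cast h
  have := Nat.le_of_dvd (by norm_num) ((ZMod.natCast_eq_zero_iff 2 p).mp h1)
  omega

theorem prod_dvd_int (S : Finset ℕ) (hS : ∀ p ∈ S, p.Prime) (x : ℤ)
    (h : ∀ p ∈ S, (p : ℤ) ∣ x) : ((∏ p ∈ S, p : ℕ) : ℤ) ∣ x := by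
  rw [Int.natCast_dvd]
  exact prod_primes_dvd _ (fun p hp => (hS p hp).prime)
    (fun p hp => Int.natCast_dvd.mp (h p hp))

theorem energy (S : Finset ℕ) (hS : ∀ p ∈ S, p.Prime ∧ 11 ≤ p) (T : ℕ) (hT : ∏ p ∈ S, p ≤ T)
    (A : Finset (Fin 4 → ℤ)) (hb : ∀ a ∈ A, ∀ k, |a k| ≤ T)
    (hA : ∀ a ∈ A, ∀ p ∈ S,
      (p : ℤ) ∣ a 0 ^ 2 + a 1 ^ 2 + a 2 ^ 2 + a 3 ^ 2 ∧ ∃ k, ¬ (p : ℤ) ∣ a k)
    (g : (Fin 4 → ℤ) → (Fin 4 → ℤ)) (hadd : ∀ a b, g (a - b) = g a - g b)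
    (hinj : Function.Injective g) :
    ((∏ p ∈ S, ga p) * (A.card : ℝ) ^ 2) ^ 2 ≤ (5 * T : ℝ) ^ 4 * (∏ p ∈ S, (1 + be p))
      * (Finset.addEnergy (A.image g) (A.image g) : ℝ) := by
  have : ∀ p : S, Fact p.1.Prime := fun p => ⟨(hS p.1 p.2).1⟩
  choose u v huv using fun p : S => ZMod.sq_add_sq p.1 (-1)
  have h2 : ∀ p : S, (2 : ZMod p.1) ≠ 0 := fun p => two_ne (hS p.1 p.2).2
  obtain ⟨red, hred⟩ : ∃ red : (Fin 4 → ℤ) → ∀ p : S, Fin 4 → ZMod p.1,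
      ∀ s p k, red s p k = (s k : ZMod p.1) := ⟨fun s p k => (s k : ZMod p.1), fun _ _ _ => rfl⟩
  have hsub : ∀ a b p, red (a - b) p = red a p - red b p := by
    intro a b p
    funext k
    rw [Pi.sub_apply, hred, hred, hred, Pi.sub_apply, Int.cast_sub]
  have hLB := lb_prod A (fun (p : S) a b => wl (u p) (v p) (red a p - red b p))
    (fun p => ga (Fintype.card (ZMod p.1))) (fun p => ga_nonneg (Nat.cast_nonneg _))
    (fun p K0 G hG h => lb_step (huv p) (h2 p) A (fun a => red a p) (fun a ha => by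
      obtain ⟨h3, k, h4⟩ := hA a ha p.1 p.2
      constructor
      · intro e
        have := congrFun e k
        rw [hred, Pi.zero_apply, ZMod.intCast_zmod_eq_zero_iff_dvd] at this
        exact h4 this
      · have := (ZMod.intCast_zmod_eq_zero_iff_dvd _ p.1).mpr h3
        push_cast at this
        rw [hred, hred, hred, hred]
        exact this) K0 G hG h) univ (fun _ => 1)
  simp only [ZMod.card, sum_const, nsmul_eq_mul, mul_one, one_mul] at hLB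
  rw [prod_coe_sort S (fun p : ℕ => ga p)] at hLB
  have hcs := cs_fibre (A ×ˢ A)
    (Fintype.piFinset (fun _ : Fin 4 => Icc (-(2 * T : ℤ)) (2 * T))) (fun x => x.1 - x.2)
    (fun x hx => Fintype.mem_piFinset.mpr (fun k => by
      have h3 := abs_le.mp (hb x.1 (mem_product.mp hx).1 k)
      have h4 := abs_le.mp (hb x.2 (mem_product.mp hx).2 k)
      rw [Pi.sub_apply, mem_Icc]
      constructor <;> linarith [h3.1, h3.2, h4.1, h4.2]))
    (fun s => ∏ p : S, wl (u p) (v p) (red s p))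
  rw [sum_product] at hcs
  simp only [hsub] at hcs
  have hQ : 0 < ∏ p ∈ S, p := prod_pos (fun p hp => (hS p hp).1.pos)
  have hbox := box_sum red (∏ p ∈ S, p) T hQ hT
    (fun s s' e k => prod_dvd_int S (fun p hp => (hS p hp).1) _ (fun p hp => by
      have := congrFun (congrFun e ⟨p, hp⟩) k
      rw [hred, hred] at this
      exact (ZMod.intCast_eq_intCast_iff_dvd_sub _ _ _).mp this.symm))
    (fun y => ∏ p : S, wl (u p) (v p) (y p) ^ 2) (fun y => prod_nonneg (fun p _ => sq_nonneg _))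
  have hsum : ∑ y : ∀ p : S, Fin 4 → ZMod p.1, ∏ p : S, wl (u p) (v p) (y p) ^ 2
      ≤ ((∏ p ∈ S, p : ℕ) : ℝ) ^ 4 * ∏ p ∈ S, (1 + be p) := by
    rw [← Fintype.piFinset_univ, ← prod_univ_sum (fun _ => univ)
      (fun (p : S) (s : Fin 4 → ZMod p.1) => wl (u p) (v p) s ^ 2), Nat.cast_prod, ← prod_pow,
      ← prod_mul_distrib, ← prod_coe_sort S (fun p : ℕ => (p : ℝ) ^ 4 * (1 + be p))]
    refine prod_le_prod (fun p _ => sum_nonneg (fun s _ => sq_nonneg _)) (fun p _ => ?_)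
    have := wl_sq_sum (huv p) (h2 p)
    rw [ZMod.card] at this
    exact this
  have hQ' : (0 : ℝ) < ((∏ p ∈ S, p : ℕ) : ℝ) ^ 4 := by positivity
  have hW : ∑ s ∈ Fintype.piFinset (fun _ : Fin 4 => Icc (-(2 * T : ℤ)) (2 * T)),
      (∏ p : S, wl (u p) (v p) (red s p)) ^ 2 ≤ (5 * T : ℝ) ^ 4 * ∏ p ∈ S, (1 + be p) := by
    refine le_of_mul_le_mul_left ?_ hQ'
    simp only [← prod_pow]
    refine hbox.trans ((mul_le_mul_of_nonneg_left hsum (by positivity)).trans (le_of_eq ?_))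
    ring
  have hE : ((((A ×ˢ A) ×ˢ (A ×ˢ A)).filter
      (fun p => p.1.1 - p.1.2 = p.2.1 - p.2.2)).card : ℝ)
      ≤ (Finset.addEnergy (A.image g) (A.image g) : ℝ) := by
    exact_mod_cast pairs_le A g hadd hinj
  have h0 : 0 ≤ (∏ p ∈ S, ga p) * (A.card : ℝ) ^ 2 :=
    mul_nonneg (prod_nonneg (fun p _ => ga_nonneg (Nat.cast_nonneg _))) (sq_nonneg _)
  refine (pow_le_pow_left₀ h0 hLB 2).trans (hcs.trans ?_)
  exact mul_le_mul hW hE (Nat.cast_nonneg _)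
    ((sum_nonneg (fun s _ => sq_nonneg _)).trans hW)

theorem count (S : Finset ℕ) (hS : ∀ p ∈ S, p.Prime ∧ 11 ≤ p) :
    ∃ k : ℕ, 1 ≤ k ∧ k ≤ 4 ∧ ∃ A : Finset (Fin 4 → ℤ),
      (∀ a ∈ A, a 0 ^ 2 + a 1 ^ 2 + a 2 ^ 2 + a 3 ^ 2 = k * ((∏ p ∈ S, p : ℕ) : ℤ)
        ∧ (∀ i, |a i| ≤ (Nat.sqrt (∏ p ∈ S, p) : ℤ)) ∧ ∀ p ∈ S, ∃ i, ¬ (p : ℤ) ∣ a i)
      ∧ ∏ p ∈ S, (p + 1) ≤ 4 * A.card := by
  classical
  have : ∀ p : S, Fact p.1.Prime := fun p => ⟨(hS p.1 p.2).1⟩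
  choose u v huv using fun p : S => ZMod.sq_add_sq p.1 (-1)
  have h2 : ∀ p : S, (2 : ZMod p.1) ≠ 0 := fun p => two_ne (hS p.1 p.2).2
  obtain ⟨N, hN⟩ : ∃ N, N = ∏ p ∈ S, p := ⟨_, rfl⟩
  rw [← hN]
  obtain ⟨T, hT⟩ : ∃ T, T = Nat.sqrt N := ⟨_, rfl⟩
  rw [← hT]
  have hT1 : T ^ 2 ≤ N := hT ▸ Nat.sqrt_le' N
  have hT2 : N < (T + 1) ^ 2 := hT ▸ Nat.lt_succ_sqrt' N
  have hN0 : 0 < N := hN ▸ prod_pos (fun p hp => (hS p hp).1.pos)
  obtain ⟨Ak, hAk⟩ : ∃ Ak : ℕ → Finset (Fin 4 → ℤ), ∀ k a, a ∈ Ak k ↔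
      (a 0 ^ 2 + a 1 ^ 2 + a 2 ^ 2 + a 3 ^ 2 = k * (N : ℤ)
        ∧ (∀ i, |a i| ≤ (T : ℤ)) ∧ ∀ p ∈ S, ∃ i, ¬ (p : ℤ) ∣ a i) := by
    refine ⟨fun k => (Fintype.piFinset (fun _ : Fin 4 => Icc (-(T : ℤ)) T)).filter
      (fun a => a 0 ^ 2 + a 1 ^ 2 + a 2 ^ 2 + a 3 ^ 2 = k * (N : ℤ)
        ∧ ∀ p ∈ S, ∃ i, ¬ (p : ℤ) ∣ a i), fun k a => ?_⟩
    simp only [mem_filter, Fintype.mem_piFinset, mem_Icc, abs_le]
    tauto
  have hpt : ∀ l : ∀ p : S, Option (ZMod p.1), ∃ a, a ∈ (Icc 1 4).biUnion Ak ∧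
      ∀ p : S, ph (u p) (v p) (l p) (fun k => (a k : ZMod p.1)) = 0 := by
    intro l
    have hc : (univ : Finset (∀ p : S, ZMod p.1 × ZMod p.1)).card
        < (Fintype.piFinset (fun _ : Fin 4 => Icc (0 : ℤ) T)).card := by
      rw [Fintype.card_piFinset, prod_const, card_univ, card_univ, Fintype.card_fin,
        Int.card_Icc, Fintype.card_pi]
      simp only [Fintype.card_prod, ZMod.card]
      have e : (T : ℤ) + 1 - 0 = ((T + 1 : ℕ) : ℤ) := by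
        rw [Nat.cast_add, Nat.cast_one, sub_zero]
      rw [e, Int.toNat_natCast, prod_coe_sort S (fun p : ℕ => p * p), prod_mul_distrib, ← hN]
      calc N * N < (T + 1) ^ 2 * (T + 1) ^ 2 := Nat.mul_self_lt_mul_self hT2
        _ = (T + 1) ^ 4 := by ring
    obtain ⟨x, hx, y, hy, hne, e⟩ := exists_ne_map_eq_of_card_lt_of_maps_to hc
      (f := fun x (p : S) => ph (u p) (v p) (l p) (fun k => (x k : ZMod p.1)))
      (fun _ _ => mem_coe.mpr (mem_univ _))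
    have hph : ∀ p : S, ph (u p) (v p) (l p) (fun k => ((x - y) k : ZMod p.1)) = 0 := by
      intro p
      have e1 : (fun k => (((x - y) k : ℤ) : ZMod p.1))
          = (fun k => (x k : ZMod p.1)) - fun k => (y k : ZMod p.1) := by
        funext k
        rw [Pi.sub_apply, Pi.sub_apply, Int.cast_sub]
      rw [e1, ph_sub, sub_eq_zero]
      exact congrFun e p
    have hbd : ∀ i, |(x - y) i| ≤ (T : ℤ) := by
      intro i
      have h3 := mem_Icc.mp (Fintype.mem_piFinset.mp hx i)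
      have h4 := mem_Icc.mp (Fintype.mem_piFinset.mp hy i)
      rw [Pi.sub_apply, abs_le]
      constructor <;> linarith [h3.1, h3.2, h4.1, h4.2]
    have ha0 : x - y ≠ 0 := sub_ne_zero.mpr hne
    refine ⟨x - y, ?_, hph⟩
    generalize x - y = a at hph hbd ha0
    have hdvd : (N : ℤ) ∣ a 0 ^ 2 + a 1 ^ 2 + a 2 ^ 2 + a 3 ^ 2 := by
      rw [hN]
      refine prod_dvd_int S (fun p hp => (hS p hp).1) _ (fun p hp => ?_)
      have := ph_norm (huv ⟨p, hp⟩) _ _ (hph ⟨p, hp⟩)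
      rw [← ZMod.intCast_zmod_eq_zero_iff_dvd]
      push_cast
      exact this
    obtain ⟨c, hc⟩ := hdvd
    have hsq : ∀ i, a i ^ 2 ≤ (N : ℤ) := by
      intro i
      have h3 : a i ^ 2 ≤ (T : ℤ) ^ 2 := by
        rw [← sq_abs]
        exact pow_le_pow_left₀ (abs_nonneg _) (hbd i) 2
      have h4 : (T : ℤ) ^ 2 ≤ N := by exact_mod_cast hT1
      linarith
    have hN' : (0 : ℤ) < N := by exact_mod_cast hN0
    have hpos : 0 < a 0 ^ 2 + a 1 ^ 2 + a 2 ^ 2 + a 3 ^ 2 := by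
      by_contra h
      apply ha0
      have q0 := sq_nonneg (a 0)
      have q1 := sq_nonneg (a 1)
      have q2 := sq_nonneg (a 2)
      have q3 := sq_nonneg (a 3)
      funext i
      fin_cases i
      · exact pow_eq_zero_iff (two_ne_zero) |>.mp (by linarith : a 0 ^ 2 = 0)
      · exact pow_eq_zero_iff (two_ne_zero) |>.mp (by linarith : a 1 ^ 2 = 0)
      · exact pow_eq_zero_iff (two_ne_zero) |>.mp (by linarith : a 2 ^ 2 = 0)
      · exact pow_eq_zero_iff (two_ne_zero) |>.mp (by linarith : a 3 ^ 2 = 0)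
    have hc1 : 0 < c := by
      by_contra h
      have : (N : ℤ) * c ≤ 0 := mul_nonpos_of_nonneg_of_nonpos hN'.le (not_lt.mp h)
      linarith
    have hc4 : c ≤ 4 := by
      refine le_of_mul_le_mul_left ?_ hN'
      linarith [hsq 0, hsq 1, hsq 2, hsq 3]
    obtain ⟨k, rfl⟩ := Int.eq_ofNat_of_zero_le hc1.le
    have hk1 : 1 ≤ k := by exact_mod_cast hc1
    have hk4 : k ≤ 4 := by exact_mod_cast hc4
    refine mem_biUnion.mpr ⟨k, mem_Icc.mpr ⟨hk1, hk4⟩, (hAk k a).mpr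
      ⟨by rw [hc, mul_comm], hbd, fun p hp => ?_⟩⟩
    by_contra h
    have h3 : ∀ i, (p : ℤ) ^ 2 ∣ a i ^ 2 := fun i =>
      pow_dvd_pow_of_dvd (not_not.mp (fun e => h ⟨i, e⟩)) 2
    have h4 : (p : ℤ) ^ 2 ∣ (N : ℤ) * k :=
      hc ▸ dvd_add (dvd_add (dvd_add (h3 0) (h3 1)) (h3 2)) (h3 3)
    have h5 : p ^ 2 ∣ N * k := by exact_mod_cast h4
    have hp' := (hS p hp).1
    rw [hN, ← mul_prod_erase S (fun p => p) hp, sq, mul_assoc,
      Nat.mul_dvd_mul_iff_left hp'.pos, hp'.dvd_mul] at h5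
    rcases h5 with h5 | h5
    · obtain ⟨r, hr, h6⟩ := (Prime.dvd_finsetProd_iff hp'.prime _).mp h5
      exact (ne_of_mem_erase hr)
        ((Nat.prime_dvd_prime_iff_eq hp' (hS r (mem_of_mem_erase hr)).1).mp h6).symm
    · have := Nat.le_of_dvd hk1 h5
      have := (hS p hp).2
      omega
  choose a ha hl using hpt
  have hcard : ∏ p ∈ S, (p + 1) ≤ ∑ k ∈ Icc 1 4, (Ak k).card := by
    refine le_trans ?_ card_biUnion_le
    have e : (univ : Finset (∀ p : S, Option (ZMod p.1))).card = ∏ p ∈ S, (p + 1) := by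
      rw [card_univ, Fintype.card_pi]
      simp only [Fintype.card_option, ZMod.card]
      exact prod_coe_sort S (fun p : ℕ => p + 1)
    rw [← e]
    refine card_le_card_of_injOn a (fun l _ => mem_coe.mpr (ha l)) ?_
    intro l _ l' _ e1
    funext p
    obtain ⟨k, _, hk⟩ := mem_biUnion.mp (ha l)
    obtain ⟨i, hi⟩ := ((hAk k _).mp hk).2.2 p.1 p.2
    refine ph_uniq (huv p) (h2 p) (fun k => (a l k : ZMod p.1)) (fun e2 => hi ?_) _ _ (hl l p)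
      (e1 ▸ hl l' p)
    exact (ZMod.intCast_zmod_eq_zero_iff_dvd _ _).mp (congrFun e2 i)
  by_contra h
  have h3 : ∀ k ∈ Icc 1 4, 4 * (Ak k).card < ∏ p ∈ S, (p + 1) := by
    intro k hk
    by_contra h4
    exact h ⟨k, (mem_Icc.mp hk).1, (mem_Icc.mp hk).2, Ak k, fun a ha => (hAk k a).mp ha,
      not_lt.mp h4⟩
  have h4 := sum_lt_sum_of_nonempty (s := Icc 1 4) ⟨1, by norm_num⟩ h3
  rw [← mul_sum, sum_const, Nat.card_Icc, smul_eq_mul] at h4
  omega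

end FL63
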