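import Pool.Agent.Lib.FL63.Local

/-! The product weight is a Gram kernel; weighted Cauchy-Schwarz for the additive energy. -/

namespace FL63

open Finset

/-- the quadratic form of the kernel `K` on `A` is at least `G` times the square of the sum -/
def LB {α : Type} (A : Finset α) (K : α → α → ℝ) (G : ℝ) : Prop :=
  ∀ f : α → ℝ, G * (∑ a ∈ A, f a) ^ 2 ≤ ∑ a ∈ A, ∑ b ∈ A, f a * f b * K a b

theorem lb_gram {α J : Type} [Fintype J] {A : Finset α} {K : α → α → ℝ} {G : ℝ} (hG : 0 ≤ G)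
    (h : LB A K G) (K' : α → α → ℝ) (g : ℝ) (H : J → α → ℝ)
    (hK : ∀ a b, K' a b = ∑ j, H j a * H j b)
    (hg : ∀ f : α → ℝ, g * (∑ a ∈ A, f a) ^ 2 ≤ ∑ j, (∑ a ∈ A, f a * H j a) ^ 2) :
    LB A (fun a b => K a b * K' a b) (G * g) := by
  intro f
  have e : ∑ a ∈ A, ∑ b ∈ A, f a * f b * (K a b * K' a b)
      = ∑ j, ∑ a ∈ A, ∑ b ∈ A, (f a * H j a) * (f b * H j b) * K a b := by
    rw [sum_comm (s := univ)]
    refine sum_congr rfl (fun a _ => ?_)
    rw [sum_comm (s := univ)]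
    refine sum_congr rfl (fun b _ => ?_)
    rw [hK, mul_sum, mul_sum]
    exact sum_congr rfl (fun j _ => by ring)
  rw [e, mul_assoc]
  refine (mul_le_mul_of_nonneg_left (hg f) hG).trans ?_
  rw [mul_sum]
  exact sum_le_sum (fun j _ => h (fun a => f a * H j a))

theorem lb_prod {α ι : Type} [DecidableEq ι] (A : Finset α) (K : ι → α → α → ℝ) (g : ι → ℝ)
    (hg : ∀ i, 0 ≤ g i)
    (hs : ∀ i (K0 : α → α → ℝ) (G : ℝ), 0 ≤ G → LB A K0 G →
      LB A (fun a b => K0 a b * K i a b) (G * g i)) (T : Finset ι) :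
    LB A (fun a b => ∏ i ∈ T, K i a b) (∏ i ∈ T, g i) := by
  induction T using Finset.induction_on with
  | empty =>
    intro f
    simp only [prod_empty, one_mul, mul_one]
    rw [sq, sum_mul_sum]
  | insert i T hi ih =>
    have := hs i _ _ (prod_nonneg (fun j _ => hg j)) ih
    intro f
    have h1 := this f
    simp only [prod_insert hi]
    rw [mul_comm (g i)]
    refine h1.trans (le_of_eq ?_)
    exact sum_congr rfl (fun a _ => sum_congr rfl (fun b _ => by ring))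

theorem centred {Y : Type} [Fintype Y] [DecidableEq Y] (c : ℝ) (hc : c * Fintype.card Y = 1)
    (x x' : Y) :
    ∑ y, ((if x = y then (1 : ℝ) else 0) - c) * ((if x' = y then (1 : ℝ) else 0) - c)
      = (if x = x' then (1 : ℝ) else 0) - c := by
  have e : ∀ y, ((if x = y then (1 : ℝ) else 0) - c) * ((if x' = y then (1 : ℝ) else 0) - c)
      = (if x = y then (if x = x' then (1 : ℝ) else 0) else 0) - c * (if x = y then 1 else 0)
        - c * (if x' = y then 1 else 0) + c * c := by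
    intro y
    by_cases h1 : x = y
    · subst h1
      by_cases h2 : x' = x
      · subst h2
        simp only [if_true]
        ring
      · rw [if_neg h2, if_neg (fun e : x = x' => h2 e.symm)]
        simp only [if_true]
        ring
    · simp only [if_neg h1]
      ring
  rw [sum_congr rfl (fun y _ => e y), sum_add_distrib, sum_sub_distrib, sum_sub_distrib,
    ← mul_sum, ← mul_sum, sum_ite_eq, sum_ite_eq, sum_ite_eq, sum_const, card_univ, nsmul_eq_mul]
  simp only [mem_univ, if_true]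
  linear_combination c * hc

theorem ga_nonneg {q : ℝ} (hq : 0 ≤ q) : 0 ≤ ga q := by
  unfold ga
  positivity

theorem lb_step {α F : Type} [Field F] [Fintype F] [DecidableEq F] {u v : F}
    (huv : u ^ 2 + v ^ 2 = -1) (h2 : (2 : F) ≠ 0) (A : Finset α) (π : α → Fin 4 → F)
    (hA : ∀ a ∈ A, π a ≠ 0 ∧ π a 0 ^ 2 + π a 1 ^ 2 + π a 2 ^ 2 + π a 3 ^ 2 = 0)
    (K0 : α → α → ℝ) (G : ℝ) (hG : 0 ≤ G) (h : LB A K0 G) :
    LB A (fun a b => K0 a b * wl u v (π a - π b)) (G * ga (Fintype.card F)) := by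
  obtain ⟨q, hq⟩ : ∃ q : ℝ, q = (Fintype.card F : ℝ) := ⟨_, rfl⟩
  have hq0 : 0 < q := by
    rw [hq]
    exact_mod_cast Fintype.card_pos
  have hc : (q ^ 2)⁻¹ * Fintype.card (F × F) = 1 := by
    rw [Fintype.card_prod]
    push_cast
    rw [← hq]
    field_simp
  have hbe : ∑ _l : Option F, (q ^ 2)⁻¹ = be q := by
    rw [sum_const, card_univ, Fintype.card_option, nsmul_eq_mul]
    push_cast
    rw [← hq]
    unfold be
    rw [div_eq_mul_inv]
  refine lb_gram hG h (fun a b => wl u v (π a - π b)) _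
    (fun (j : Option (Option F × (F × F))) a =>
      j.elim 1 (fun j => (if ph u v j.1 (π a) = j.2 then (1 : ℝ) else 0) - (q ^ 2)⁻¹)) ?_ ?_
  · intro a b
    rw [Fintype.sum_option, Fintype.sum_prod_type]
    simp only [Option.elim]
    rw [sum_congr rfl (fun l _ => centred _ hc (ph u v l (π a)) (ph u v l (π b))),
      sum_sub_distrib, hbe]
    unfold wl nu
    rw [← hq]
    have : ∀ l : Option F, (if ph u v l (π a - π b) = 0 then (1 : ℝ) else 0)
        = if ph u v l (π a) = ph u v l (π b) then (1 : ℝ) else 0 := by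
      intro l
      rw [ph_sub]
      simp only [sub_eq_zero]
    rw [sum_congr rfl (fun l _ => this l)]
    ring
  · intro f
    rw [Fintype.sum_option, Fintype.sum_prod_type, ← hq]
    simp only [Option.elim, mul_one]
    have h1 : ∑ l : Option F,
        (∑ a ∈ A, f a * ((if ph u v l (π a) = 0 then (1 : ℝ) else 0) - (q ^ 2)⁻¹)) ^ 2
        ≤ ∑ l : Option F, ∑ y : F × F,
        (∑ a ∈ A, f a * ((if ph u v l (π a) = y then (1 : ℝ) else 0) - (q ^ 2)⁻¹)) ^ 2 :=
      sum_le_sum (fun l _ => single_le_sum (f := fun y : F × F =>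
        (∑ a ∈ A, f a * ((if ph u v l (π a) = y then (1 : ℝ) else 0) - (q ^ 2)⁻¹)) ^ 2)
        (fun y _ => sq_nonneg _) (mem_univ 0))
    have h3 : ∑ l : Option F,
        ∑ a ∈ A, f a * ((if ph u v l (π a) = 0 then (1 : ℝ) else 0) - (q ^ 2)⁻¹)
        = (1 - be q) * ∑ a ∈ A, f a := by
      rw [sum_comm, mul_sum]
      refine sum_congr rfl (fun a ha => ?_)
      obtain ⟨l, hl⟩ := ph_exists huv (π a) (hA a ha).2
      have := nu_one huv h2 (π a) (hA a ha).1 l hl
      unfold nu at this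
      rw [← mul_sum, sum_sub_distrib, hbe, this, mul_comm]
    have h4 := sq_sum_le_card_mul_sum_sq (s := (univ : Finset (Option F))) (f := fun l =>
      ∑ a ∈ A, f a * ((if ph u v l (π a) = 0 then (1 : ℝ) else 0) - (q ^ 2)⁻¹))
    rw [h3, card_univ, Fintype.card_option] at h4
    push_cast at h4
    rw [← hq] at h4
    have h5 : (1 - be q) ^ 2 / (q + 1) * (∑ a ∈ A, f a) ^ 2 ≤ ∑ l : Option F,
        (∑ a ∈ A, f a * ((if ph u v l (π a) = 0 then (1 : ℝ) else 0) - (q ^ 2)⁻¹)) ^ 2 := by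
      rw [div_mul_eq_mul_div, div_le_iff₀ (by positivity), ← mul_pow, mul_comm _ (q + 1)]
      exact h4
    unfold ga
    linarith

theorem cs_fibre {X Y : Type} [DecidableEq Y] (S : Finset X) (B : Finset Y) (f : X → Y)
    (hf : ∀ x ∈ S, f x ∈ B) (w : Y → ℝ) :
    (∑ x ∈ S, w (f x)) ^ 2
      ≤ (∑ s ∈ B, w s ^ 2) * (((S ×ˢ S).filter (fun p => f p.1 = f p.2)).card : ℝ) := by
  have e1 : ∑ x ∈ S, w (f x) = ∑ s ∈ B, w s * ((S.filter (fun x => f x = s)).card : ℝ) := by
    rw [← sum_fiberwise_of_maps_to hf]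
    refine sum_congr rfl (fun s _ => ?_)
    rw [sum_congr rfl (fun x hx => by rw [(mem_filter.mp hx).2]), sum_const, nsmul_eq_mul,
      mul_comm]
  have e2 : ((S ×ˢ S).filter (fun p => f p.1 = f p.2)).card
      = ∑ s ∈ B, (S.filter (fun x => f x = s)).card ^ 2 := by
    rw [card_eq_sum_card_fiberwise (f := fun p : X × X => f p.1) (t := B)
      (fun p hp => hf p.1 (mem_product.mp (mem_filter.mp (mem_coe.mp hp)).1).1)]
    refine sum_congr rfl (fun s _ => ?_)
    rw [sq, ← card_product]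
    apply congrArg
    ext p
    simp only [mem_filter, mem_product]
    constructor
    · rintro ⟨⟨⟨h1, h2⟩, h3⟩, h4⟩
      exact ⟨⟨h1, h4⟩, h2, h3 ▸ h4⟩
    · rintro ⟨⟨h1, h4⟩, h2, h5⟩
      exact ⟨⟨⟨h1, h2⟩, h4.trans h5.symm⟩, h4⟩
  rw [e1, e2]
  push_cast
  exact sum_mul_sq_le_sq_mul_sq B _ _

theorem pairs_le {G : Type} [AddCommGroup G] [DecidableEq G] (A : Finset G) (g : G → G)
    (hadd : ∀ a b, g (a - b) = g a - g b) (hinj : Function.Injective g) :
    (((A ×ˢ A) ×ˢ (A ×ˢ A)).filter (fun p => p.1.1 - p.1.2 = p.2.1 - p.2.2)).card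
      ≤ Finset.addEnergy (A.image g) (A.image g) := by
  unfold Finset.addEnergy
  refine card_le_card_of_injOn (fun p => ((g p.1.1, g p.1.2), (g p.2.2, g p.2.1))) ?_ ?_
  · intro p hp
    have h := mem_filter.mp (mem_coe.mp hp)
    have h1 := mem_product.mp h.1
    have h3 := mem_product.mp h1.1
    have h4 := mem_product.mp h1.2
    refine mem_coe.mpr (mem_filter.mpr ⟨mem_product.mpr ⟨mem_product.mpr
      ⟨mem_image_of_mem g h3.1, mem_image_of_mem g h3.2⟩, mem_product.mpr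
      ⟨mem_image_of_mem g h4.2, mem_image_of_mem g h4.1⟩⟩, ?_⟩)
    have h5 := congrArg g h.2
    rw [hadd, hadd] at h5
    show g p.1.1 + g p.2.2 = g p.1.2 + g p.2.1
    rw [sub_eq_sub_iff_add_eq_add] at h5
    rw [h5, add_comm]
  · intro p _ p' _ e
    simp only [Prod.mk.injEq] at e
    exact Prod.ext (Prod.ext (hinj e.1.1) (hinj e.1.2)) (Prod.ext (hinj e.2.2) (hinj e.2.1))

theorem box_sum {Y : Type} [Fintype Y] [DecidableEq Y] (red : (Fin 4 → ℤ) → Y) (Q T : ℕ)
    (hQ : 0 < Q) (hQT : Q ≤ T)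
    (hred : ∀ s s', red s = red s' → ∀ k, (Q : ℤ) ∣ s k - s' k) (g : Y → ℝ) (hg : ∀ y, 0 ≤ g y) :
    (Q : ℝ) ^ 4 * ∑ s ∈ Fintype.piFinset (fun _ : Fin 4 => Icc (-(2 * T : ℤ)) (2 * T)), g (red s)
      ≤ (5 * T : ℝ) ^ 4 * ∑ y, g y := by
  obtain ⟨B, hB⟩ : ∃ B, B = Fintype.piFinset (fun _ : Fin 4 => Icc (-(2 * T : ℤ)) (2 * T)) :=
    ⟨_, rfl⟩
  rw [← hB]
  have hQ' : (0 : ℤ) < Q := by exact_mod_cast hQ
  have hfib : ∀ y, (B.filter (fun s => red s = y)).card ≤ (4 * T / Q + 1) ^ 4 := by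
    intro y
    have hc : (Fintype.piFinset (fun _ : Fin 4 => Icc (0 : ℤ) ((4 * T / Q : ℕ) : ℤ))).card
        = (4 * T / Q + 1) ^ 4 := by
      rw [Fintype.card_piFinset, prod_const, card_univ, Fintype.card_fin, Int.card_Icc]
      have : ((4 * T / Q : ℕ) : ℤ) + 1 - 0 = ((4 * T / Q + 1 : ℕ) : ℤ) := by
        rw [Nat.cast_add, Nat.cast_one, sub_zero]
      rw [this, Int.toNat_natCast]
    rw [← hc]
    refine card_le_card_of_injOn (fun s k => (s k + 2 * T) / Q) ?_ ?_
    · intro s hs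
      have h1 := (mem_filter.mp (mem_coe.mp hs)).1
      rw [hB, Fintype.mem_piFinset] at h1
      refine mem_coe.mpr (Fintype.mem_piFinset.mpr (fun k => ?_))
      have h3 := mem_Icc.mp (h1 k)
      refine mem_Icc.mpr ⟨Int.ediv_nonneg (by linarith [h3.1]) hQ'.le, ?_⟩
      rw [Int.natCast_div]
      refine Int.ediv_le_ediv hQ' ?_
      push_cast
      linarith [h3.2]
    · intro s hs s' hs' e
      have h1 := (mem_filter.mp (mem_coe.mp hs)).2
      have h3 := (mem_filter.mp (mem_coe.mp hs')).2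
      funext k
      have h4 := hred s s' (h1.trans h3.symm) k
      have h5 : (s k + 2 * T) / Q = (s' k + 2 * T) / Q := congrFun e k
      have h6 : (s k + 2 * T) % Q = (s' k + 2 * T) % Q := by
        rw [Int.emod_eq_emod_iff_emod_sub_eq_zero]
        apply Int.emod_eq_zero_of_dvd
        have : s k + 2 * T - (s' k + 2 * T) = s k - s' k := by ring
        rw [this]
        exact h4
      have h7 := Int.emod_add_mul_ediv (s k + 2 * T) Q
      have h8 := Int.emod_add_mul_ediv (s' k + 2 * T) Q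
      rw [h5, h6] at h7
      linarith
  have hJ : (Q : ℝ) * ((4 * T / Q + 1 : ℕ) : ℝ) ≤ 5 * T := by
    have h1 : Q * (4 * T / Q) ≤ 4 * T := Nat.mul_div_le _ _
    have h3 : Q * (4 * T / Q + 1) ≤ 5 * T := by
      rw [mul_add, mul_one]
      omega
    exact_mod_cast h3
  rw [← sum_fiberwise_of_maps_to (s := B) (t := univ) (g := red) (fun _ _ => mem_univ _),
    mul_sum, mul_sum]
  refine sum_le_sum (fun y _ => ?_)
  rw [sum_congr rfl (fun x hx => by rw [(mem_filter.mp hx).2]), sum_const, nsmul_eq_mul,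
    ← mul_assoc]
  refine mul_le_mul_of_nonneg_right ?_ (hg y)
  have h1 : ((B.filter (fun s => red s = y)).card : ℝ) ≤ ((4 * T / Q + 1 : ℕ) : ℝ) ^ 4 := by
    exact_mod_cast hfib y
  calc (Q : ℝ) ^ 4 * ((B.filter (fun s => red s = y)).card : ℝ)
      ≤ (Q : ℝ) ^ 4 * ((4 * T / Q + 1 : ℕ) : ℝ) ^ 4 :=
        mul_le_mul_of_nonneg_left h1 (by positivity)
    _ = ((Q : ℝ) * ((4 * T / Q + 1 : ℕ) : ℝ)) ^ 4 := by rw [mul_pow]
    _ ≤ (5 * T : ℝ) ^ 4 := pow_le_pow_left₀ (by positivity) hJ 4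

end FL63
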