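import Mathlib

/-! Isotropic planes of the sum of four squares over a finite field, and the local weight. -/

namespace FL63

open Finset

section Field

variable {F : Type} [Field F]

/-- the matrix of the quaternion `s` applied to the point `l` of the projective line -/
def ph (u v : F) (l : Option F) (s : Fin 4 → F) : F × F :=
  match l with
  | some t => ((s 0 + s 2 * u + s 3 * v) + t * (s 1 + s 2 * v - s 3 * u),
      (-s 1 + s 2 * v - s 3 * u) + t * (s 0 - s 2 * u - s 3 * v))
  | none => (s 1 + s 2 * v - s 3 * u, s 0 - s 2 * u - s 3 * v)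

theorem ph_sub (u v : F) (l : Option F) (s s' : Fin 4 → F) :
    ph u v l (s - s') = ph u v l s - ph u v l s' := by
  cases l with
  | none => simp only [ph, Pi.sub_apply, Prod.mk_sub_mk, Prod.mk.injEq]; constructor <;> ring
  | some t => simp only [ph, Pi.sub_apply, Prod.mk_sub_mk, Prod.mk.injEq]; constructor <;> ring

theorem ph_norm {u v : F} (huv : u ^ 2 + v ^ 2 = -1) (l : Option F) (s : Fin 4 → F)
    (h : ph u v l s = 0) : s 0 ^ 2 + s 1 ^ 2 + s 2 ^ 2 + s 3 ^ 2 = 0 := by
  cases l with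
  | none =>
    simp only [ph, Prod.mk_eq_zero] at h
    obtain ⟨h1, h2⟩ := h
    linear_combination (s 0 + s 2 * u + s 3 * v) * h2 - (-s 1 + s 2 * v - s 3 * u) * h1
      + (s 2 ^ 2 + s 3 ^ 2) * huv
  | some t =>
    simp only [ph, Prod.mk_eq_zero] at h
    obtain ⟨h1, h2⟩ := h
    linear_combination (s 0 - s 2 * u - s 3 * v) * h1 - (s 1 + s 2 * v - s 3 * u) * h2
      + (s 2 ^ 2 + s 3 ^ 2) * huv

theorem zero_of {u v : F} (huv : u ^ 2 + v ^ 2 = -1) (h2 : (2 : F) ≠ 0) (s : Fin 4 → F)
    (a : s 0 + s 2 * u + s 3 * v = 0) (b : s 1 + s 2 * v - s 3 * u = 0)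
    (c : -s 1 + s 2 * v - s 3 * u = 0) (d : s 0 - s 2 * u - s 3 * v = 0) : s = 0 := by
  have e0 : s 0 = 0 := by
    apply mul_left_cancel₀ h2
    linear_combination a + d
  have e1 : s 1 = 0 := by
    apply mul_left_cancel₀ h2
    linear_combination b - c
  have e2 : s 2 = 0 := by
    apply mul_left_cancel₀ h2
    linear_combination (-u) * (a - d) - v * (b + c) + 2 * s 2 * huv
  have e3 : s 3 = 0 := by
    apply mul_left_cancel₀ h2
    linear_combination (-v) * (a - d) + u * (b + c) + 2 * s 3 * huv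
  funext i
  fin_cases i
  · exact e0
  · exact e1
  · exact e2
  · exact e3

theorem ph_uniq {u v : F} (huv : u ^ 2 + v ^ 2 = -1) (h2 : (2 : F) ≠ 0) (s : Fin 4 → F)
    (hs : s ≠ 0) (l l' : Option F) (h : ph u v l s = 0) (h' : ph u v l' s = 0) : l = l' := by
  by_contra hne
  apply hs
  cases l with
  | none =>
    cases l' with
    | none => exact absurd rfl hne
    | some t =>
      simp only [ph, Prod.mk_eq_zero] at h h'
      obtain ⟨h1, h3⟩ := h
      obtain ⟨h4, h5⟩ := h'
      exact zero_of huv h2 s (by linear_combination h4 - t * h1) h1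
        (by linear_combination h5 - t * h3) h3
  | some t =>
    cases l' with
    | none =>
      simp only [ph, Prod.mk_eq_zero] at h h'
      obtain ⟨h1, h3⟩ := h'
      obtain ⟨h4, h5⟩ := h
      exact zero_of huv h2 s (by linear_combination h4 - t * h1) h1
        (by linear_combination h5 - t * h3) h3
    | some t' =>
      simp only [ph, Prod.mk_eq_zero] at h h'
      obtain ⟨h1, h3⟩ := h'
      obtain ⟨h4, h5⟩ := h
      have ht : t - t' ≠ 0 := fun e => hne (by rw [sub_eq_zero.mp e])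
      have b : s 1 + s 2 * v - s 3 * u = 0 := by
        apply mul_left_cancel₀ ht
        linear_combination h4 - h1
      have d : s 0 - s 2 * u - s 3 * v = 0 := by
        apply mul_left_cancel₀ ht
        linear_combination h5 - h3
      exact zero_of huv h2 s (by linear_combination h4 - t * b) b
        (by linear_combination h5 - t * d) d

theorem ph_exists {u v : F} (huv : u ^ 2 + v ^ 2 = -1) (s : Fin 4 → F)
    (h : s 0 ^ 2 + s 1 ^ 2 + s 2 ^ 2 + s 3 ^ 2 = 0) : ∃ l, ph u v l s = 0 := by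
  have hdet : (s 0 + s 2 * u + s 3 * v) * (s 0 - s 2 * u - s 3 * v)
      - (s 1 + s 2 * v - s 3 * u) * (-s 1 + s 2 * v - s 3 * u) = 0 := by
    linear_combination h - (s 2 ^ 2 + s 3 ^ 2) * huv
  by_cases b : s 1 + s 2 * v - s 3 * u = 0
  · by_cases d : s 0 - s 2 * u - s 3 * v = 0
    · exact ⟨none, by simp only [ph, Prod.mk_eq_zero]; exact ⟨b, d⟩⟩
    · refine ⟨some (-(-s 1 + s 2 * v - s 3 * u) * (s 0 - s 2 * u - s 3 * v)⁻¹), ?_⟩
      have hi := inv_mul_cancel₀ d
      simp only [ph, Prod.mk_eq_zero]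
      constructor
      · rw [b, mul_zero, add_zero]
        apply mul_right_cancel₀ d
        linear_combination hdet + (-s 1 + s 2 * v - s 3 * u) * b
      · linear_combination (-(-s 1 + s 2 * v - s 3 * u)) * hi
  · refine ⟨some (-(s 0 + s 2 * u + s 3 * v) * (s 1 + s 2 * v - s 3 * u)⁻¹), ?_⟩
    have hi := inv_mul_cancel₀ b
    simp only [ph, Prod.mk_eq_zero]
    constructor
    · linear_combination (-(s 0 + s 2 * u + s 3 * v)) * hi
    · apply mul_right_cancel₀ b
      linear_combination (-1 : F) * hdet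
        - (s 0 + s 2 * u + s 3 * v) * (s 0 - s 2 * u - s 3 * v) * hi

variable [Fintype F] [DecidableEq F]

theorem ker_card {u v : F} (huv : u ^ 2 + v ^ 2 = -1) (h2 : (2 : F) ≠ 0) (l : Option F) :
    (univ.filter (fun s : Fin 4 → F => ph u v l s = 0)).card ≤ Fintype.card F ^ 2 := by
  have hc : (univ : Finset (F × F)).card = Fintype.card F ^ 2 := by
    rw [card_univ, Fintype.card_prod, sq]
  rw [← hc]
  cases l with
  | none =>
    refine card_le_card_of_injOn
      (fun s => (s 0 + s 2 * u + s 3 * v, -s 1 + s 2 * v - s 3 * u)) (fun _ _ => mem_univ _) ?_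
    intro s hs s' hs' e
    have h1 := (mem_filter.mp (mem_coe.mp hs)).2
    have h3 := (mem_filter.mp (mem_coe.mp hs')).2
    simp only [ph, Prod.mk_eq_zero] at h1 h3
    simp only [Prod.mk.injEq] at e
    apply sub_eq_zero.mp
    apply zero_of huv h2 <;> simp only [Pi.sub_apply]
    · linear_combination e.1
    · linear_combination h1.1 - h3.1
    · linear_combination e.2
    · linear_combination h1.2 - h3.2
  | some t =>
    refine card_le_card_of_injOn
      (fun s => (s 1 + s 2 * v - s 3 * u, s 0 - s 2 * u - s 3 * v)) (fun _ _ => mem_univ _) ?_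
    intro s hs s' hs' e
    have h1 := (mem_filter.mp (mem_coe.mp hs)).2
    have h3 := (mem_filter.mp (mem_coe.mp hs')).2
    simp only [ph, Prod.mk_eq_zero] at h1 h3
    simp only [Prod.mk.injEq] at e
    apply sub_eq_zero.mp
    apply zero_of huv h2 <;> simp only [Pi.sub_apply]
    · linear_combination h1.1 - h3.1 - t * e.1
    · linear_combination e.1
    · linear_combination h1.2 - h3.2 - t * e.2
    · linear_combination e.2

/-- number of planes through `s` -/
noncomputable def nu (u v : F) (s : Fin 4 → F) : ℝ :=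
  ∑ l : Option F, if ph u v l s = 0 then (1 : ℝ) else 0

/-- the mean of `nu` -/
noncomputable def be (q : ℝ) : ℝ := (q + 1) / q ^ 2

/-- the local gain -/
noncomputable def ga (q : ℝ) : ℝ := 1 + (1 - be q) ^ 2 / (q + 1)

/-- the local weight -/
noncomputable def wl (u v : F) (s : Fin 4 → F) : ℝ := 1 - be (Fintype.card F) + nu u v s

theorem nu_one {u v : F} (huv : u ^ 2 + v ^ 2 = -1) (h2 : (2 : F) ≠ 0) (s : Fin 4 → F)
    (hs : s ≠ 0) (l : Option F) (h : ph u v l s = 0) : nu u v s = 1 := by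
  unfold nu
  rw [sum_eq_single l]
  · rw [if_pos h]
  · intro l' _ hne
    rw [if_neg (fun h' => hne (ph_uniq huv h2 s hs l' l h' h))]
  · intro hl
    exact absurd (mem_univ l) hl

theorem nu_sq {u v : F} (huv : u ^ 2 + v ^ 2 = -1) (h2 : (2 : F) ≠ 0) (s : Fin 4 → F) :
    nu u v s ^ 2 ≤ nu u v s + if s = 0 then ((Fintype.card F : ℝ) + 1) ^ 2 else 0 := by
  have h0 : 0 ≤ nu u v s := sum_nonneg (fun l _ => by split_ifs <;> norm_num)
  by_cases hs : s = 0
  · rw [if_pos hs]
    have h1 : nu u v s ≤ (Fintype.card F : ℝ) + 1 := by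
      calc nu u v s ≤ ∑ _l : Option F, (1 : ℝ) :=
            sum_le_sum (fun l _ => by split_ifs <;> norm_num)
        _ = (Fintype.card F : ℝ) + 1 := by simp
    have := pow_le_pow_left₀ h0 h1 2
    linarith
  · rw [if_neg hs]
    by_cases hl : ∃ l, ph u v l s = 0
    · obtain ⟨l, hl⟩ := hl
      rw [nu_one huv h2 s hs l hl]
      norm_num
    · have : nu u v s = 0 := sum_eq_zero (fun l _ => if_neg (fun h => hl ⟨l, h⟩))
      rw [this]
      norm_num

theorem nu_sum {u v : F} (huv : u ^ 2 + v ^ 2 = -1) (h2 : (2 : F) ≠ 0) :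
    ∑ s : Fin 4 → F, nu u v s ≤ ((Fintype.card F : ℝ) + 1) * (Fintype.card F : ℝ) ^ 2 := by
  unfold nu
  rw [sum_comm]
  calc ∑ l : Option F, ∑ s : Fin 4 → F, (if ph u v l s = 0 then (1 : ℝ) else 0)
      ≤ ∑ _l : Option F, (Fintype.card F : ℝ) ^ 2 := by
        refine sum_le_sum (fun l _ => ?_)
        rw [sum_boole]
        exact_mod_cast ker_card huv h2 l
    _ = ((Fintype.card F : ℝ) + 1) * (Fintype.card F : ℝ) ^ 2 := by simp

theorem be_le {q : ℝ} (hq : 2 ≤ q) : be q ≤ 1 := by
  unfold be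
  rw [div_le_one (by positivity)]
  nlinarith

theorem wl_sq_sum {u v : F} (huv : u ^ 2 + v ^ 2 = -1) (h2 : (2 : F) ≠ 0) :
    ∑ s : Fin 4 → F, wl u v s ^ 2
      ≤ (Fintype.card F : ℝ) ^ 4 * (1 + be (Fintype.card F)) := by
  obtain ⟨q, hq⟩ : ∃ q : ℝ, q = (Fintype.card F : ℝ) := ⟨_, rfl⟩
  rw [← hq]
  have hq2 : 2 ≤ q := by
    have : 1 < Fintype.card F := Fintype.one_lt_card
    have h3 : 2 ≤ Fintype.card F := this
    rw [hq]
    exact_mod_cast h3
  have hb := be_le hq2
  have hbq : be q * q ^ 2 = q + 1 := by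
    unfold be
    field_simp
  have h1 : ∀ s : Fin 4 → F, wl u v s ^ 2 ≤ (1 - be q) ^ 2 + (3 - 2 * be q) * nu u v s
      + if s = 0 then (q + 1) ^ 2 else 0 := by
    intro s
    have := nu_sq huv h2 s
    unfold wl
    rw [← hq] at this ⊢
    nlinarith
  refine (sum_le_sum (fun s _ => h1 s)).trans ?_
  rw [sum_add_distrib, sum_add_distrib, ← mul_sum, sum_const, sum_ite_eq', if_pos (mem_univ _),
    card_univ, Fintype.card_fun, Fintype.card_fin, nsmul_eq_mul]
  have h3 := nu_sum huv h2
  rw [← hq] at h3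
  have h4 : (3 - 2 * be q) * ∑ s : Fin 4 → F, nu u v s ≤ (3 - 2 * be q) * ((q + 1) * q ^ 2) :=
    mul_le_mul_of_nonneg_left h3 (by linarith)
  push_cast
  rw [← hq]
  have h5 : q ^ 4 * (1 + be q)
      = q ^ 4 * (1 - be q) ^ 2 + (3 - 2 * be q) * ((q + 1) * q ^ 2) + (q + 1) ^ 2 := by
    rw [← hbq]
    ring
  linarith

end Field

end FL63
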