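import Pool.Agent.Lib.FL63.Energy

/-! Products over primes and the lower bound for the additive energy on spheres in four
dimensions. -/

namespace FL63

open Finset

theorem harm (y : ℕ) :
    Real.log ((y + 1 : ℕ) : ℝ) ≤ 3 * ∏ p ∈ (range (y + 1)).filter Nat.Prime, (1 + (p : ℝ)⁻¹) := by
  obtain ⟨S, hS⟩ : ∃ S, S = (range (y + 1)).filter Nat.Prime := ⟨_, rfl⟩
  rw [← hS]
  have h1 : Real.log ((y + 1 : ℕ) : ℝ) ≤ ∑ k ∈ Icc 1 y, (k : ℝ)⁻¹ := by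
    have := log_add_one_le_harmonic y
    rw [harmonic_eq_sum_Icc] at this
    push_cast at this ⊢
    exact this
  have h2 : ∀ k : ℕ, ∃ x : ℕ × Finset ℕ, k ∈ Icc 1 y →
      x ∈ Ioo 0 (y + 1) ×ˢ S.powerset ∧ x.1 ^ 2 * ∏ p ∈ x.2, p = k := by
    intro k
    by_cases hk : k ∈ Icc 1 y
    · obtain ⟨hk1, hk2⟩ := mem_Icc.mp hk
      obtain ⟨a, b, ha, hb, hab, hsq⟩ := Nat.sq_mul_squarefree_of_pos (n := k) hk1
      refine ⟨(b, a.primeFactors), fun _ => ⟨mem_product.mpr ⟨mem_Ioo.mpr ⟨hb, ?_⟩,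
        mem_powerset.mpr (fun p hp => ?_)⟩, ?_⟩⟩
      · have : b ≤ k := Nat.le_of_dvd hk1 ⟨b * a, by rw [← hab]; ring⟩
        show b < y + 1
        omega
      · have h3 : p ≤ k := Nat.le_of_dvd hk1
          ((Nat.dvd_of_mem_primeFactors hp).trans ⟨b ^ 2, by rw [← hab]; ring⟩)
        rw [hS]
        exact mem_filter.mpr ⟨mem_range.mpr (by omega), Nat.prime_of_mem_primeFactors hp⟩
      · show b ^ 2 * ∏ p ∈ a.primeFactors, p = k
        rw [Nat.prod_primeFactors_of_squarefree hsq, hab]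
    · exact ⟨(0, ∅), fun h => absurd h hk⟩
  choose φ hφ using h2
  have h3 : ∑ k ∈ Icc 1 y, (k : ℝ)⁻¹
      ≤ ∑ x ∈ Ioo 0 (y + 1) ×ˢ S.powerset, ((x.1 : ℝ) ^ 2)⁻¹ * ∏ p ∈ x.2, (p : ℝ)⁻¹ := by
    have e : ∑ k ∈ Icc 1 y, (k : ℝ)⁻¹
        = ∑ x ∈ (Icc 1 y).image φ, ((x.1 : ℝ) ^ 2)⁻¹ * ∏ p ∈ x.2, (p : ℝ)⁻¹ := by
      rw [sum_image (fun k hk k' hk' e => by
        rw [← (hφ k hk).2, ← (hφ k' hk').2, e])]
      refine sum_congr rfl (fun k hk => ?_)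
      have := congrArg (fun z : ℕ => (z : ℝ)) (hφ k hk).2
      push_cast at this
      rw [prod_inv_distrib, ← mul_inv, this]
    rw [e]
    refine sum_le_sum_of_subset_of_nonneg (fun x hx => ?_) (fun x _ _ => by positivity)
    obtain ⟨k, hk, rfl⟩ := mem_image.mp hx
    exact (hφ k hk).1
  rw [sum_product, prod_one_add] at *
  simp only [← mul_sum, ← sum_mul] at h3
  have h4 : ∑ i ∈ Ioo 0 (y + 1), ((i : ℝ) ^ 2)⁻¹ ≤ 2 / (((0 : ℕ) : ℝ) + 1) :=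
    sum_Ioo_inv_sq_le 0 (y + 1)
  have h5 : 0 ≤ ∑ t ∈ S.powerset, ∏ p ∈ t, (p : ℝ)⁻¹ := by positivity
  refine h1.trans (h3.trans (mul_le_mul_of_nonneg_right (h4.trans ?_) h5))
  norm_num

theorem gain {q : ℝ} (hq : 11 ≤ q) :
    (1 + q⁻¹) * (1 - 7 * (q ^ 2)⁻¹) * (1 + be q) ≤ ga q ^ 2 := by
  have hq0 : 0 < q := by linarith
  obtain ⟨t, ht⟩ : ∃ t, t = q⁻¹ := ⟨_, rfl⟩
  have ht0 : 0 < t := ht ▸ inv_pos.mpr hq0
  have htq : t * q = 1 := ht ▸ inv_mul_cancel₀ hq0.ne'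
  have ht1 : t ≤ 1 / 11 := by nlinarith
  have e1 : be q = t + t ^ 2 := by
    unfold be
    rw [ht]
    field_simp
  have e2 : (q ^ 2)⁻¹ = t ^ 2 := by rw [ht, inv_pow]
  have h3 : (1 + t) * (1 - 3 * t ^ 2) ≤ ga q := by
    unfold ga
    rw [e1]
    have h4 : t - 3 * t ^ 2 - 3 * t ^ 3 ≤ (1 - (t + t ^ 2)) ^ 2 / (q + 1) := by
      rw [le_div_iff₀ (by linarith)]
      have e3 : (t - 3 * t ^ 2 - 3 * t ^ 3) * (q + 1) = (1 - 3 * t - 3 * t ^ 2) * (1 + t) := by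
        linear_combination (1 - 3 * t - 3 * t ^ 2) * htq
      rw [e3]
      have := pow_pos ht0 2
      have := pow_pos ht0 3
      have := pow_pos ht0 4
      nlinarith
    nlinarith
  have h5 : 0 ≤ (1 + t) * (1 - 3 * t ^ 2) := mul_nonneg (by linarith) (by nlinarith)
  refine le_trans ?_ (pow_le_pow_left₀ h5 h3 2)
  rw [e1, e2, ← ht]
  have e4 : ((1 + t) * (1 - 3 * t ^ 2)) ^ 2 - (1 + t) * (1 - 7 * t ^ 2) * (1 + (t + t ^ 2))
      = (1 + t) * (t ^ 3 + 16 * t ^ 4 + 9 * t ^ 5) := by ring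
  have : 0 ≤ (1 + t) * (t ^ 3 + 16 * t ^ 4 + 9 * t ^ 5) := by positivity
  linarith

theorem prod_one_sub (S : Finset ℕ) (x : ℕ → ℝ) (h0 : ∀ i ∈ S, 0 ≤ x i) (h1 : ∀ i ∈ S, x i ≤ 1) :
    1 - ∑ i ∈ S, x i ≤ ∏ i ∈ S, (1 - x i) := by
  induction S using Finset.induction_on with
  | empty => simp
  | insert i T hi ih =>
    rw [sum_insert hi, prod_insert hi]
    have h2 := ih (fun j hj => h0 j (mem_insert_of_mem hj)) (fun j hj => h1 j (mem_insert_of_mem hj))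
    have h3 := h0 i (mem_insert_self _ _)
    have h4 := h1 i (mem_insert_self _ _)
    have h5 : 0 ≤ ∑ j ∈ T, x j := sum_nonneg (fun j hj => h0 j (mem_insert_of_mem hj))
    have h6 := mul_le_mul_of_nonneg_left h2 (sub_nonneg.mpr h4)
    nlinarith

theorem gain_prod (S : Finset ℕ) (hS : ∀ p ∈ S, p.Prime ∧ 11 ≤ p) :
    (∏ p ∈ S, (1 + (p : ℝ)⁻¹)) * (3 / 10) * ∏ p ∈ S, (1 + be p) ≤ (∏ p ∈ S, ga p) ^ 2 := by
  have hq : ∀ p ∈ S, (11 : ℝ) ≤ p := fun p hp => by exact_mod_cast (hS p hp).2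
  have h7 : ∀ p ∈ S, 7 * ((p : ℝ) ^ 2)⁻¹ ≤ 1 := by
    intro p hp
    have := hq p hp
    rw [← div_eq_mul_inv, div_le_one (by positivity)]
    nlinarith
  have hb : ∀ p : ℕ, 0 ≤ 1 + be p := fun p => by
    unfold be
    positivity
  have h1 : (3 / 10 : ℝ) ≤ ∏ p ∈ S, (1 - 7 * ((p : ℝ) ^ 2)⁻¹) := by
    refine le_trans ?_ (prod_one_sub S _ (fun p _ => by positivity) h7)
    have h2 : ∑ p ∈ S, ((p : ℝ) ^ 2)⁻¹ ≤ ∑ i ∈ Ioc 10 (S.sup id + 10), ((i : ℝ) ^ 2)⁻¹ := by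
      refine sum_le_sum_of_subset_of_nonneg (fun p hp => mem_Ioc.mpr ⟨(hS p hp).2, ?_⟩)
        (fun i _ _ => by positivity)
      have : id p ≤ S.sup id := le_sup hp
      exact le_trans this (Nat.le_add_right _ _)
    have h3 := sum_Ioc_inv_sq_le_sub (α := ℝ) (k := 10) (n := S.sup id + 10) (by norm_num)
      (Nat.le_add_left _ _)
    have h4 : (0 : ℝ) ≤ ((S.sup id + 10 : ℕ) : ℝ)⁻¹ := by positivity
    have h5 : (((10 : ℕ) : ℝ))⁻¹ = 1 / 10 := by norm_num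
    rw [← mul_sum]
    linarith
  refine (mul_le_mul_of_nonneg_right (mul_le_mul_of_nonneg_left h1 (by positivity))
    (prod_nonneg (fun p _ => hb p))).trans ?_
  rw [← prod_mul_distrib, ← prod_mul_distrib, ← prod_pow]
  refine prod_le_prod (fun p hp => ?_) (fun p hp => gain (hq p hp))
  exact mul_nonneg (mul_nonneg (by positivity) (sub_nonneg.mpr (h7 p hp))) (hb p)

/-- left multiplication by the quaternion `(a, b, c, d)` -/
def qm (a b c d : ℤ) (x : Fin 4 → ℤ) : Fin 4 → ℤ :=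
  ![a * x 0 - b * x 1 - c * x 2 - d * x 3, a * x 1 + b * x 0 + c * x 3 - d * x 2,
    a * x 2 - b * x 3 + c * x 0 + d * x 1, a * x 3 + b * x 2 - c * x 1 + d * x 0]

theorem qm_norm (a b c d : ℤ) (x : Fin 4 → ℤ) :
    ∑ i, qm a b c d x i ^ 2
      = (a ^ 2 + b ^ 2 + c ^ 2 + d ^ 2) * (x 0 ^ 2 + x 1 ^ 2 + x 2 ^ 2 + x 3 ^ 2) := by
  simp only [Fin.sum_univ_four, qm, Matrix.cons_val]
  ring

theorem qm_sub (a b c d : ℤ) (x y : Fin 4 → ℤ) :
    qm a b c d (x - y) = qm a b c d x - qm a b c d y := by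
  funext i
  fin_cases i <;> simp [qm] <;> ring

theorem qm_inj (a b c d : ℤ) (h : a ^ 2 + b ^ 2 + c ^ 2 + d ^ 2 ≠ 0) :
    Function.Injective (qm a b c d) := by
  intro x y e
  have h1 := qm_norm a b c d (x - y)
  rw [qm_sub, e, sub_self] at h1
  simp only [Pi.zero_apply, ne_eq, OfNat.ofNat_ne_zero, not_false_eq_true, zero_pow,
    sum_const_zero] at h1
  have h2 := (mul_eq_zero.mp h1.symm).resolve_left h
  have q0 := sq_nonneg ((x - y) 0)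
  have q1 := sq_nonneg ((x - y) 1)
  have q2 := sq_nonneg ((x - y) 2)
  have q3 := sq_nonneg ((x - y) 3)
  apply sub_eq_zero.mp
  funext i
  fin_cases i
  · exact pow_eq_zero_iff (two_ne_zero) |>.mp (by linarith : (x - y) 0 ^ 2 = 0)
  · exact pow_eq_zero_iff (two_ne_zero) |>.mp (by linarith : (x - y) 1 ^ 2 = 0)
  · exact pow_eq_zero_iff (two_ne_zero) |>.mp (by linarith : (x - y) 2 ^ 2 = 0)
  · exact pow_eq_zero_iff (two_ne_zero) |>.mp (by linarith : (x - y) 3 ^ 2 = 0)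

theorem core (S : Finset ℕ) (hS : ∀ p ∈ S, p.Prime ∧ 11 ≤ p) (R : ℕ) (hR : R.Prime)
    (h11 : 11 ≤ R) (hRS : R ∉ S) (hQR : ∏ p ∈ S, p ≤ R) :
    ∃ P : Finset (Fin 4 → ℤ), (∀ x ∈ P, ∑ i, x i ^ 2 = ((6 * (R * ∏ p ∈ S, p) : ℕ) : ℤ) ^ 2) ∧
      6 * (R * ∏ p ∈ S, p) ≤ 24 * P.card ∧
      3 / 100000 * (P.card : ℝ) ^ 2 * (∏ p ∈ S, (1 + (p : ℝ)⁻¹)) ^ 3
        ≤ (Finset.addEnergy P P : ℝ) := by
  obtain ⟨k, hk1, hk4, A, hA, hcard⟩ := count (insert R S) (fun p hp => by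
    rcases mem_insert.mp hp with rfl | hp
    · exact ⟨hR, h11⟩
    · exact hS p hp)
  simp only [prod_insert hRS] at hA hcard
  obtain ⟨N, hN⟩ : ∃ N, N = R * ∏ p ∈ S, p := ⟨_, rfl⟩
  rw [← hN] at hA ⊢
  have hQ0 : 0 < ∏ p ∈ S, p := prod_pos (fun p hp => (hS p hp).1.pos)
  have hN0 : 0 < N := hN ▸ Nat.mul_pos hR.pos hQ0
  obtain ⟨j, hj⟩ : k ∣ 36 := by interval_cases k <;> norm_num
  obtain ⟨a, b, c, d, hz⟩ := Nat.sum_four_squares (j * N)
  have hz' : (a : ℤ) ^ 2 + b ^ 2 + c ^ 2 + d ^ 2 = j * N := by exact_mod_cast hz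
  have hj' : (36 : ℤ) = k * j := by exact_mod_cast hj
  have hinj := qm_inj a b c d (by
    rw [hz']
    have : 0 < j * N := Nat.mul_pos (Nat.pos_of_ne_zero (fun e => by simp [e] at hj)) hN0
    exact_mod_cast this.ne')
  have hE := energy S hS (Nat.sqrt N)
    (Nat.le_sqrt.mpr (hN ▸ Nat.mul_le_mul_right _ hQR)) A (fun x hx => (hA x hx).2.1)
    (fun x hx p hp => ⟨by
      rw [(hA x hx).1, hN]
      exact Dvd.dvd.mul_left (Int.natCast_dvd_natCast.mpr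
        (Dvd.dvd.mul_left (dvd_prod_of_mem (fun p => p) hp) R)) _,
      (hA x hx).2.2 p (mem_insert_of_mem hp)⟩) _ (qm_sub a b c d) hinj
  obtain ⟨L, hL⟩ : ∃ L : ℝ, L = ∏ p ∈ S, (1 + (p : ℝ)⁻¹) := ⟨_, rfl⟩
  have hL1 : 1 ≤ L := by
    have := prod_le_prod (s := S) (f := fun _ => (1 : ℝ)) (g := fun p : ℕ => 1 + (p : ℝ)⁻¹)
      (fun _ _ => zero_le_one) (fun p _ => le_add_of_nonneg_right (by positivity))
    rw [prod_const_one] at this
    exact hL ▸ this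
  have hm : (N : ℝ) * L ≤ 4 * A.card := by
    have h1 : ((R : ℝ) + 1) * ∏ p ∈ S, ((p : ℝ) + 1) ≤ 4 * A.card := by exact_mod_cast hcard
    have h2 : ∏ p ∈ S, ((p : ℝ) + 1) = (∏ p ∈ S, (p : ℝ)) * L := by
      rw [hL, ← prod_mul_distrib]
      refine prod_congr rfl (fun p hp => ?_)
      have : (p : ℝ) ≠ 0 := by exact_mod_cast (hS p hp).1.ne_zero
      field_simp
    have h3 : 0 ≤ (∏ p ∈ S, (p : ℝ)) * L := by positivity
    rw [hN]
    push_cast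
    rw [h2] at h1
    nlinarith
  have hN' : (0 : ℝ) < N := by exact_mod_cast hN0
  refine ⟨A.image (qm a b c d), fun x hx => ?_, ?_, ?_⟩
  · obtain ⟨w, hw, rfl⟩ := mem_image.mp hx
    rw [qm_norm, hz', (hA w hw).1]
    push_cast
    linear_combination (-(N : ℤ) ^ 2) * hj'
  · rw [card_image_of_injective _ hinj]
    have h1 : (N : ℝ) ≤ 4 * A.card := le_trans (le_mul_of_one_le_right hN'.le hL1) hm
    have h2 : N ≤ 4 * A.card := by exact_mod_cast h1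
    omega
  · rw [card_image_of_injective _ hinj, ← hL]
    have hg := gain_prod S hS
    rw [← hL] at hg
    have hD : 0 < ∏ p ∈ S, (1 + be p) := prod_pos (fun p _ => by
      unfold be
      positivity)
    have hT : ((Nat.sqrt N : ℕ) : ℝ) ^ 2 ≤ N := by exact_mod_cast Nat.sqrt_le' N
    have hT4 : (5 * (Nat.sqrt N : ℕ) : ℝ) ^ 4 ≤ 625 * (N : ℝ) ^ 2 := by
      have := pow_le_pow_left₀ (sq_nonneg _) hT 2
      nlinarith
    generalize (Finset.addEnergy (A.image (qm a b c d)) (A.image (qm a b c d))) = E at hE ⊢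
    generalize ∏ p ∈ S, (1 + be p) = D at hE hg hD
    generalize ∏ p ∈ S, ga p = G at hE hg
    generalize A.card = m at hE hm ⊢
    have h1 : L * (3 / 10) * D * ((m : ℝ) ^ 2) ^ 2 ≤ 625 * (N : ℝ) ^ 2 * D * E := by
      refine (mul_le_mul_of_nonneg_right hg (sq_nonneg _)).trans ?_
      rw [← mul_pow]
      exact hE.trans (mul_le_mul_of_nonneg_right (mul_le_mul_of_nonneg_right hT4 hD.le)
        (Nat.cast_nonneg _))
    have h2 : ((N : ℝ) * L) ^ 2 ≤ (4 * m) ^ 2 := pow_le_pow_left₀ (by positivity) hm 2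
    have h3 := mul_le_mul_of_nonneg_left h2
      (by positivity : 0 ≤ L * (3 / 160) * D * (m : ℝ) ^ 2)
    have h4 : 0 < 625 * (N : ℝ) ^ 2 * D := by positivity
    refine le_of_mul_le_mul_left ?_ h4
    nlinarith

theorem main : ∃ c : ℝ, 0 < c ∧ ∀ N : ℕ, ∃ n : ℕ, N ≤ n ∧ ∃ P : Finset (Fin 4 → ℤ),
    (∀ x ∈ P, ∑ i, x i ^ 2 = (n : ℤ) ^ 2) ∧ n ≤ 24 * P.card ∧
    c * (P.card : ℝ) ^ 2 * Real.log (Real.log n) ^ 3 ≤ (Finset.addEnergy P P : ℝ) := by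
  refine ⟨3 / 100000 / (6 * 2 ^ 11) ^ 3, by positivity, fun N => ?_⟩
  obtain ⟨y, hy⟩ : ∃ y, y = N + 14 := ⟨_, rfl⟩
  obtain ⟨U, hU⟩ : ∃ U, U = (range (y + 1)).filter Nat.Prime := ⟨_, rfl⟩
  obtain ⟨S, hS⟩ : ∃ S, S = U.filter (fun p => 11 ≤ p) := ⟨_, rfl⟩
  have hS' : ∀ p ∈ S, p.Prime ∧ 11 ≤ p ∧ p ≤ y := by
    intro p hp
    rw [hS, hU, mem_filter, mem_filter, mem_range] at hp
    exact ⟨hp.1.2, hp.2, by omega⟩
  have hQ : ∏ p ∈ S, p ≤ 4 ^ y := by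
    refine le_trans ?_ (primorial_le_four_pow y)
    refine Nat.le_of_dvd (primorial_pos y) ?_
    unfold primorial
    rw [hS, hU]
    exact prod_dvd_prod_of_subset _ _ _ (filter_subset _ _)
  have hQ0 : 0 < ∏ p ∈ S, p := prod_pos (fun p hp => (hS' p hp).1.pos)
  obtain ⟨R, hR, hR1, hR2⟩ := Nat.exists_prime_lt_and_le_two_mul (4 ^ y) (by positivity)
  have hy4 : y < 4 ^ y := Nat.lt_pow_self (by norm_num)
  obtain ⟨P, hP1, hP2, hP3⟩ := core S (fun p hp => ⟨(hS' p hp).1, (hS' p hp).2.1⟩) R hR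
    (by omega) (fun h => by have := (hS' R h).2.2; omega) (by omega)
  obtain ⟨n, hn⟩ : ∃ n, n = 6 * (R * ∏ p ∈ S, p) := ⟨_, rfl⟩
  rw [← hn] at hP1 hP2
  have hn1 : R ≤ n := by
    have := Nat.le_mul_of_pos_right R hQ0
    omega
  have hn2 : n ≤ 12 * 16 ^ y := by
    have h1 := Nat.mul_le_mul hR2 hQ
    have h2 : 16 ^ y = 4 ^ y * 4 ^ y := by
      rw [← mul_pow]
      rfl
    rw [hn, h2]
    linarith
  refine ⟨n, by omega, P, hP1, hP2, le_trans ?_ hP3⟩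
  have hlog : Real.log (Real.log n) ≤ 2 * Real.log ((y + 1 : ℕ) : ℝ) := by
    have h0 : (1 : ℝ) < n := by
      have : 1 < n := by omega
      exact_mod_cast this
    have h1 : (n : ℝ) ≤ 12 * 16 ^ y := by exact_mod_cast hn2
    have h2 := Real.log_le_log (by linarith) h1
    rw [Real.log_mul (by norm_num) (by positivity), Real.log_pow] at h2
    have h3 := Real.log_le_sub_one_of_pos (by norm_num : (0 : ℝ) < 12)
    have h4 := Real.log_le_sub_one_of_pos (by norm_num : (0 : ℝ) < 16)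
    have h5 : (14 : ℝ) ≤ y := by
      have : 14 ≤ y := by omega
      exact_mod_cast this
    have h6 : Real.log n ≤ ((y + 1 : ℕ) : ℝ) ^ 2 := by
      push_cast
      nlinarith
    have h7 := Real.log_le_log (Real.log_pos h0) h6
    rw [Real.log_pow] at h7
    exact_mod_cast h7
  have hsplit : ∏ p ∈ U, (1 + (p : ℝ)⁻¹) ≤ 2 ^ 11 * ∏ p ∈ S, (1 + (p : ℝ)⁻¹) := by
    rw [← prod_filter_mul_prod_filter_not U (fun p => 11 ≤ p), ← hS, mul_comm]
    refine mul_le_mul_of_nonneg_right ?_ (by positivity)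
    have h1 : (U.filter (fun p => ¬ 11 ≤ p)).card ≤ 11 := by
      refine (card_le_card (t := range 11) (fun p hp => mem_range.mpr ?_)).trans (card_range 11).le
      exact not_le.mp (mem_filter.mp hp).2
    calc ∏ p ∈ U.filter (fun p => ¬ 11 ≤ p), (1 + (p : ℝ)⁻¹)
        ≤ ∏ _p ∈ U.filter (fun p => ¬ 11 ≤ p), (2 : ℝ) :=
          prod_le_prod (fun p _ => by positivity)
            (fun p _ => by linarith [Nat.cast_inv_le_one (α := ℝ) p])
      _ = 2 ^ (U.filter (fun p => ¬ 11 ≤ p)).card := prod_const _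
      _ ≤ 2 ^ 11 := pow_le_pow_right₀ (by norm_num) h1
  have hh := harm y
  rw [← hU] at hh
  have h8 : Real.log (Real.log n) ≤ 6 * 2 ^ 11 * ∏ p ∈ S, (1 + (p : ℝ)⁻¹) := by linarith
  have h9 := (Odd.strictMono_pow (R := ℝ) (by decide : Odd 3)).monotone h8
  simp only [mul_pow (6 * 2 ^ 11 : ℝ)] at h9
  have h10 := mul_le_mul_of_nonneg_left h9
    (by positivity : (0 : ℝ) ≤ 3 / 100000 / (6 * 2 ^ 11) ^ 3 * (P.card : ℝ) ^ 2)
  refine h10.trans (le_of_eq ?_)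
  field_simp

end FL63
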